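import Pool.Agent.ZPK.StmtsG

/-! Squad ZPK, row CDI: units, and different zeros. -/

set_option autoImplicit false

namespace Pool.Agent.ZPK.H10

open Pool.Agent.ZPT Pool.Agent.ZP3 Pool.Agent.ZPK

noncomputable section

theorem rs_finite (p n m : ℕ) (E : Set (Fin n → Fin m → ℤ)) : (Rs p E).Finite := by
  have h : {x : Fin n → Fin m → ℤ | ∀ i, x i ∈ {y : Fin m → ℤ | ∀ r, y r ∈
      Set.Icc (0 : ℤ) ((p : ℤ) ^ 2)}}.Finite :=
    Set.Finite.pi' fun _ => Set.Finite.pi' fun _ => Set.finite_Icc _ _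
  refine h.subset ?_
  rintro x ⟨hx, -⟩ i r
  exact ⟨(hx i r).1, (hx i r).2.le⟩

theorem rs_union {ι : Type} [Fintype ι] (p n m B : ℕ) (E : Set (Fin n → Fin m → ℤ))
    (F : ι → Set (Fin n → Fin m → ℤ)) (hE : E ⊆ ⋃ i, F i)
    (hF : ∀ i, (Rs p (F i)).ncard * p ^ 2 ≤ B) :
    (Rs p E).ncard * p ^ 2 ≤ Fintype.card ι * B := by
  have h1 : Rs p E ⊆ ⋃ i, Rs p (F i) := by
    rintro x ⟨hx, a, ha, hxa⟩
    obtain ⟨i, hi⟩ := Set.mem_iUnion.mp (hE ha)
    exact Set.mem_iUnion.mpr ⟨i, hx, a, hi, hxa⟩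
  have h2 : (Rs p E).ncard ≤ ∑ i, (Rs p (F i)).ncard :=
    (Set.ncard_le_ncard h1 (Set.finite_iUnion fun i => rs_finite p n m (F i))).trans
      (Set.ncard_iUnion_le_of_fintype _)
  calc (Rs p E).ncard * p ^ 2 ≤ (∑ i, (Rs p (F i)).ncard) * p ^ 2 :=
        Nat.mul_le_mul_right _ h2
    _ = ∑ i, (Rs p (F i)).ncard * p ^ 2 := Finset.sum_mul _ _ _
    _ ≤ ∑ _i : ι, B := Finset.sum_le_sum fun i _ => hF i
    _ = Fintype.card ι * B := by
      rw [Finset.sum_const, smul_eq_mul, Finset.card_univ]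

theorem cdi_sub_lt {K : Type} [NormedField K] [IsUltrametricDist K] {x y : K} (hx : ‖x‖ < 1)
    (hy : ‖y‖ < 1) : ‖x - y‖ < 1 := by
  have h := IsUltrametricDist.norm_add_le_max x (-y)
  rw [norm_neg, ← sub_eq_add_neg] at h
  exact h.trans_lt (max_lt hx hy)

theorem cdi_sub_le {K : Type} [NormedField K] [IsUltrametricDist K] {x y : K} (hx : ‖x‖ ≤ 1)
    (hy : ‖y‖ ≤ 1) : ‖x - y‖ ≤ 1 := by
  have h := IsUltrametricDist.norm_add_le_max x (-y)
  rw [norm_neg, ← sub_eq_add_neg] at h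
  exact h.trans (max_le hx hy)

theorem sv_le {K : Type} [NormedField K] [IsUltrametricDist K] {m : ℕ} (β : Fin m → K)
    (hβ : ∀ r, ‖β r‖ ≤ 1) (x : Fin m → ℤ) : ‖sv β x‖ ≤ 1 := by
  unfold sv
  refine IsUltrametricDist.norm_sum_le_of_forall_le_of_nonneg zero_le_one fun r _ => ?_
  rw [norm_mul]
  exact mul_le_one₀ (IsUltrametricDist.norm_intCast_le_one K _) (norm_nonneg _) (hβ r)

theorem sv_close {K : Type} [NormedField K] [CharZero K] [IsUltrametricDist K] {p : ℕ}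
    (hp : p.Prime) (hE : Ext p K) {m : ℕ} (β : Fin m → K)
    (hβ : ∀ r, ‖β r‖ ≤ 1) (x y : Fin m → ℤ) (h : ∀ r, (p : ℤ) ^ 2 ∣ x r - y r) :
    ‖sv β x - sv β y‖ < 1 := by
  have hpn : ‖(p : K)‖ < 1 := by
    have h1 := hE (p : ℚ)
    haveI : Fact p.Prime := ⟨hp⟩
    rw [padicNorm.padicNorm_p_of_prime] at h1
    have h2 : ((p : ℚ) : K) = (p : K) := by push_cast; rfl
    rw [h2] at h1
    rw [h1]
    push_cast
    have h3 : (1 : ℝ) < (p : ℝ) := by exact_mod_cast hp.one_lt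
    exact inv_lt_one_of_one_lt₀ h3
  have e : sv β x - sv β y = ∑ r, ((x r - y r : ℤ) : K) * β r := by
    unfold sv
    rw [← Finset.sum_sub_distrib]
    refine Finset.sum_congr rfl fun r _ => ?_
    push_cast
    ring
  rw [e]
  have h4 : ‖∑ r, ((x r - y r : ℤ) : K) * β r‖ ≤ ‖(p : K)‖ := by
    refine IsUltrametricDist.norm_sum_le_of_forall_le_of_nonneg (norm_nonneg _) fun r _ => ?_
    obtain ⟨w, hw⟩ := h r
    rw [hw]
    push_cast
    rw [norm_mul, norm_mul, norm_pow]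
    calc ‖(p : K)‖ ^ 2 * ‖(w : K)‖ * ‖β r‖ ≤ ‖(p : K)‖ ^ 2 * 1 * 1 := by
          apply mul_le_mul _ (hβ r) (norm_nonneg _) (by positivity)
          exact mul_le_mul_of_nonneg_left (IsUltrametricDist.norm_intCast_le_one K w)
            (by positivity)
      _ = ‖(p : K)‖ * ‖(p : K)‖ := by ring
      _ ≤ ‖(p : K)‖ * 1 := mul_le_mul_of_nonneg_left hpn.le (norm_nonneg _)
      _ = ‖(p : K)‖ := mul_one _
  exact h4.trans_lt hpn

theorem cdi (cta : CtaStmt) : CdiStmt := by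
  intro p hp K _ _ _ hE n m β hβ ν hν e A hA1 hA
  constructor
  · have h := rs_union p n m (p ^ (2 * (n * m)))
      {a : Fin n → Fin m → ℤ | ¬ ∀ i, ‖sv β (a i)‖ = 1}
      (fun i : Fin n => {a : Fin n → Fin m → ℤ | ‖sv β (a i)‖ < 1}) ?_ ?_
    · rwa [Fintype.card_fin] at h
    · intro a ha
      have ha' : ¬ ∀ i, ‖sv β (a i)‖ = 1 := ha
      rw [not_forall] at ha'
      obtain ⟨i, hi⟩ := ha'
      exact Set.mem_iUnion.mpr ⟨i, lt_of_le_of_ne (sv_le β hβ.1 _) hi⟩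
    · intro i
      apply cta p hp K hE n m β hβ i
      intro a ha a' ha' _
      exact cdi_sub_lt ha ha'
  · have h := rs_union p n m (p ^ (2 * (n * m)))
      {a : Fin n → Fin m → ℤ | (∀ i, ‖sv β (a i)‖ = 1) ∧ ¬ Di e A (gv β ν a)}
      (fun q : Fin n × Fin n => {a : Fin n → Fin m → ℤ | q.1 ≠ q.2 ∧ 1 ≤ e q.1 ∧
        e q.1 = e q.2 ∧ ‖A q.1 0 * gv β ν a q.2 - A q.2 0 * gv β ν a q.1‖ < 1}) ?_ ?_
    · rw [Fintype.card_prod, Fintype.card_fin, ← pow_two] at h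
      exact h
    · intro a ha
      have ha' : ¬ Di e A (gv β ν a) := ha.2
      unfold Di at ha'
      rw [not_forall] at ha'
      obtain ⟨i, hi⟩ := ha'
      rw [not_forall] at hi
      obtain ⟨j, hj⟩ := hi
      rw [Classical.not_imp] at hj
      obtain ⟨h1, h2⟩ := hj
      rw [Classical.not_imp] at h2
      obtain ⟨h2, h3⟩ := h2
      rw [Classical.not_imp] at h3
      obtain ⟨h3, h4⟩ := h3
      refine Set.mem_iUnion.mpr ⟨(i, j), h1, h2, h3, lt_of_le_of_ne ?_ h4⟩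
      have g1 : ∀ k, ‖gv β ν a k‖ ≤ 1 := by
        intro k
        unfold gv
        rw [norm_mul, hν, mul_one]
        exact sv_le β hβ.1 _
      apply cdi_sub_le
      · rw [norm_mul]
        exact mul_le_one₀ (hA1 _) (norm_nonneg _) (g1 _)
      · rw [norm_mul]
        exact mul_le_one₀ (hA1 _) (norm_nonneg _) (g1 _)
    · rintro ⟨i, j⟩
      by_cases hij : i ≠ j ∧ 1 ≤ e i ∧ e i = e j
      · obtain ⟨h1, h2, h3⟩ := hij
        apply cta p hp K hE n m β hβ j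
        rintro a ⟨-, -, -, ha⟩ a' ⟨-, -, -, ha'⟩ hk
        have hi := sv_close hp hE β hβ.1 (a i) (a' i) (hk i h1)
        have e1 : A i 0 * ν * (sv β (a j) - sv β (a' j)) =
            (A i 0 * gv β ν a j - A j 0 * gv β ν a i) -
            ((A i 0 * gv β ν a' j - A j 0 * gv β ν a' i) -
              A j 0 * ν * (sv β (a i) - sv β (a' i))) := by
          unfold gv
          ring
        have e2 : ‖A i 0 * ν * (sv β (a j) - sv β (a' j))‖ = ‖sv β (a j) - sv β (a' j)‖ := by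
          rw [norm_mul, norm_mul, hA i h2, hν, one_mul, one_mul]
        rw [← e2, e1]
        apply cdi_sub_lt ha
        apply cdi_sub_lt ha'
        rw [norm_mul, norm_mul, hν, mul_one]
        calc ‖A j 0‖ * ‖sv β (a i) - sv β (a' i)‖ ≤ 1 * ‖sv β (a i) - sv β (a' i)‖ :=
              mul_le_mul_of_nonneg_right (hA1 j) (norm_nonneg _)
          _ = ‖sv β (a i) - sv β (a' i)‖ := one_mul _
          _ < 1 := hi
      · apply cta p hp K hE n m β hβ j
        rintro a ⟨h1, h2, h3, -⟩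
        exact absurd ⟨h1, h2, h3⟩ hij

end

end Pool.Agent.ZPK.H10
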