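import Pool.Agent.ZPK.StmtsR

/-! Squad ZPK, row RNL: a large coordinate at the radius of `e ≤ e'`. -/

set_option autoImplicit false

namespace Pool.Agent.ZPK.H10

open Pool.Agent.ZPT Pool.Agent.ZP3 Pool.Agent.ZPK

noncomputable section

theorem norm_p {K : Type} [NormedField K] [CharZero K] {p : ℕ} (hp : p.Prime) (hE : Ext p K) :
    ‖(p : K)‖ = (p : ℝ)⁻¹ := by
  have h1 := hE (p : ℚ)
  haveI : Fact p.Prime := ⟨hp⟩
  rw [padicNorm.padicNorm_p_of_prime] at h1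
  have h2 : ((p : ℚ) : K) = (p : K) := by push_cast; rfl
  rw [h2] at h1
  rw [h1]
  push_cast
  rfl

theorem rnl (rla : RlaStmt) : RnlStmt := by
  intro U hU p hp hp5 K _ _ _ _ hE L e e' A g cd he hee t q ht hLa hAt
  have hp1 : (1 : ℝ) < (p : ℝ) := by exact_mod_cast hp.one_lt
  have hp0 : (0 : ℝ) < (p : ℝ) := zero_lt_one.trans hp1
  have hpi : (p : ℝ)⁻¹ < 1 := inv_lt_one_of_one_lt₀ hp1
  have hLa' : ‖t‖ ^ e < (p : ℝ)⁻¹ := hLa
  have t1 : ‖t‖ < 1 := by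
    by_contra h
    exact absurd ((one_le_pow₀ (not_lt.mp h)).trans_lt (hLa'.trans hpi)) (lt_irrefl 1)
  have hle : ‖t‖ ^ e' ≤ ‖t‖ ^ e := pow_le_pow_of_le_one ht.le t1.le hee
  have hLe : La p e' t := hle.trans_lt hLa'
  obtain ⟨hq, hN⟩ := rla U hU p hp hp5 K hE L e' A g cd (he.trans hee) t q ht t1 hLe hAt
  have h1 := hN 1 le_rfl
  have hA : ‖A 0‖ = 1 := cd.A0 (he.trans hee)
  have hA0 : A 0 ≠ 0 := by
    intro h
    rw [h, norm_zero] at hA
    exact zero_ne_one hA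
  have hpn := norm_p hp hE
  rw [Finset.sum_range_one, pow_zero, mul_one, div_self hA0, pow_one] at h1
  have hmax : max ‖t‖ (‖t‖ ^ e') = ‖t‖ := by
    apply max_eq_left
    calc ‖t‖ ^ e' ≤ ‖t‖ ^ 1 := pow_le_pow_of_le_one ht.le t1.le (he.trans hee)
      _ = ‖t‖ := pow_one _
  rw [hmax] at h1
  have nrm : ‖g / A 0 * (t ^ e' / (p : K))‖ = ‖t‖ ^ e' * p := by
    rw [norm_mul, norm_div, cd.g1, hA, div_one, one_mul, norm_div, norm_pow, hpn, div_inv_eq_mul]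
  have hw1 : ‖t‖ ^ e * p < 1 := by
    calc ‖t‖ ^ e * p < (p : ℝ)⁻¹ * p := mul_lt_mul_of_pos_right hLa' hp0
      _ = 1 := inv_mul_cancel₀ hp0.ne'
  have hw2 : ‖t‖ ^ e' * p < 1 := (mul_le_mul_of_nonneg_right hle hp0.le).trans_lt hw1
  refine ⟨t1, hq, ?_, ?_⟩
  · unfold lL
    split_ifs with hc
    · rw [← hc]
      exact h1
    · have hlt : e + 1 ≤ e' := by omega
      rw [zero_mul, add_zero]
      have e1 : t ^ e' * q⁻¹ / A 0 - 1 =
          (t ^ e' * q⁻¹ / A 0 - (1 + g / A 0 * (t ^ e' / (p : K)))) +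
            g / A 0 * (t ^ e' / (p : K)) := by ring
      rw [e1]
      refine (IsUltrametricDist.norm_add_le_max _ _).trans (max_le h1 ?_)
      rw [nrm]
      calc ‖t‖ ^ e' * p ≤ ‖t‖ ^ (e + 1) * p :=
            mul_le_mul_of_nonneg_right (pow_le_pow_of_le_one ht.le t1.le hlt) hp0.le
        _ = ‖t‖ * (‖t‖ ^ e * p) := by ring
        _ ≤ ‖t‖ * 1 := mul_le_mul_of_nonneg_left hw1.le ht.le
        _ = ‖t‖ := mul_one _
  · have e1 : t ^ e' * q⁻¹ / A 0 - 1 =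
        (t ^ e' * q⁻¹ / A 0 - (1 + g / A 0 * (t ^ e' / (p : K)))) +
          g / A 0 * (t ^ e' / (p : K)) := by ring
    rw [e1]
    refine (IsUltrametricDist.norm_add_le_max _ _).trans_lt (max_lt (h1.trans_lt t1) ?_)
    rw [nrm]
    exact hw2

end

end Pool.Agent.ZPK.H10
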