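import Pool.Agent.ZPK.StmtsR2

/-! Squad ZPK, row UPE: the relations at the upper end. -/

set_option autoImplicit false

namespace Pool.Agent.ZPK.H10

open Pool.Agent.ZPT Pool.Agent.ZP3 Pool.Agent.ZPK

noncomputable section

theorem upe_nat {K : Type} [NormedField K] [CharZero K] {p : ℕ} (hp : p.Prime) (hE : Ext p K)
    (n : ℕ) (h1 : 1 ≤ n) (h2 : n < p) : ‖(n : K)‖ = 1 := by
  have h := hE (n : ℚ)
  have : Fact p.Prime := ⟨hp⟩
  have h3 : padicNorm p (n : ℚ) = 1 := by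
    rw [padicNorm.nat_eq_one_iff]
    intro h4
    exact absurd (Nat.le_of_dvd (by omega) h4) (not_le.mpr h2)
  have h5 : ((n : ℚ) : K) = (n : K) := by push_cast; rfl
  rw [h3, h5] at h
  rw [h]
  push_cast
  rfl

theorem upe_add {K : Type} [NormedField K] [IsUltrametricDist K] {x y : K} {ρ : ℝ}
    (hx : ‖x‖ ≤ ρ) (hy : ‖y‖ ≤ ρ) : ‖x + y‖ ≤ ρ :=
  (IsUltrametricDist.norm_add_le_max x y).trans (max_le hx hy)

theorem upe_sub {K : Type} [NormedField K] [IsUltrametricDist K] {x y : K} {ρ : ℝ}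
    (hx : ‖x‖ ≤ ρ) (hy : ‖y‖ ≤ ρ) : ‖x - y‖ ≤ ρ := by
  rw [sub_eq_add_neg]
  apply upe_add hx
  rwa [norm_neg]

theorem upe_mul {K : Type} [NormedField K] {x y : K} {ρ : ℝ} (hx : ‖x‖ ≤ 1) (hy : ‖y‖ ≤ ρ) :
    ‖x * y‖ ≤ ρ := by
  rw [norm_mul]
  exact (mul_le_of_le_one_left (norm_nonneg y) hx).trans hy

theorem upe_one {K : Type} [NormedField K] [IsUltrametricDist K] {x : K} (hx : ‖x‖ < 1) :
    ‖1 + x‖ = 1 := by
  apply le_antisymm
  · have h := IsUltrametricDist.norm_add_le_max (1 : K) x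
    rw [norm_one] at h
    exact h.trans (max_le le_rfl hx.le)
  · have h := IsUltrametricDist.norm_add_le_max (1 + x) (-x)
    rw [add_neg_cancel_right, norm_one, norm_neg] at h
    rcases le_max_iff.mp h with h | h
    · exact h
    · exact absurd h (not_le.mpr hx)

theorem upe_ne {K : Type} [NormedField K] {a : K} (ha : ‖a‖ = 1) : a ≠ 0 := by
  intro e
  rw [e, norm_zero] at ha
  exact zero_ne_one ha

theorem upe (urr : ZP3.URRStmt) (thb : ZP3.THBStmt) (lgb : LgbStmt) : UpeStmt := by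
  intro p hp hp11 K _ _ _ hE Log hLog s e' e₁ e₂ A B t w y r a₁ a₂ F₁ F₂ n₁ n₂ g₁ g₂ l₁ l₂ ρ
    he' he'p he₁ he₁p he₂ he₂p ua₁ ua₂ ug₁ ug₂ ul₁ ul₂ hl hρ1 hρ2 hw hw1 hw2 hF₁ hF₂ hn₁ hn₂
    R1 R2 hA hB hy hr
  obtain ⟨-, t0, t1, tp, -⟩ := thb p hp (by omega)
  obtain ⟨rg, -, -, -, inv⟩ := urr p hp K hE
  obtain ⟨⟨log1, logz⟩, logdiv, -, log3, -, log5, -⟩ := lgb p hp (by omega) K hE Log hLog
  have hp0 : (p : K) ≠ 0 := by
    exact_mod_cast hp.ne_zero
  have hρt : ρ < th p := by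
    calc ρ < th p ^ 3 := hρ2
      _ ≤ th p ^ 1 := pow_le_pow_of_le_one t0.le t1.le (by norm_num)
      _ = th p := pow_one _
  have hρ0 : 0 ≤ ρ := le_trans (by positivity) hρ1
  have hwn : 0 < ‖w‖ := lt_of_lt_of_le (by positivity) hw1
  have hw0 : w ≠ 0 := norm_pos_iff.mp hwn
  have ht0 : t ≠ 0 := by
    intro h
    apply hw0
    rw [hw, h, zero_pow (by omega), div_zero]
  have hte : t ^ e' ≠ 0 := pow_ne_zero _ ht0
  have nl : ∀ l : K, Ur p l → ‖l * w‖ < 1 := by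
    intro l hl
    rw [norm_mul]
    exact (mul_le_of_le_one_left (norm_nonneg w) hl.1).trans_lt hw2
  have n1 := upe_one (nl l₁ ul₁)
  have n2 := upe_one (nl l₂ ul₂)
  have z1 := upe_ne n1
  have z2 := upe_ne n2
  have zl := upe_ne hl
  have small : ∀ x : K, ‖x‖ ≤ ρ → ‖Log (1 + x)‖ ≤ ρ := by
    intro x hx
    rw [log3 x (hx.trans_lt hρt)]
    exact hx
  have unit : ∀ a : K, Uu p a → ‖Log a‖ ≤ ρ := fun a ha => (log5 a ha).trans hρ1
  have logN : ∀ g l n : K, Uu p g → Ur p l → ‖n - g * (1 + l * w)‖ ≤ ρ →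
      ‖Log n - Log (1 + l * w)‖ ≤ ρ := by
    intro g l n ug ul hn
    have m1 := upe_one (nl l ul)
    have c1 : ‖g * (1 + l * w)‖ = 1 := by rw [norm_mul, ug.2, m1, one_mul]
    have c0 := upe_ne c1
    have d1 : ‖(n - g * (1 + l * w)) / (g * (1 + l * w))‖ ≤ ρ := by
      rw [norm_div, c1, div_one]
      exact hn
    have d2 := small _ d1
    have d3 : 1 + (n - g * (1 + l * w)) / (g * (1 + l * w)) ≠ 0 :=
      upe_ne (upe_one (d1.trans_lt (hρt.trans t1)))
    have e : n = g * (1 + l * w) * (1 + (n - g * (1 + l * w)) / (g * (1 + l * w))) := by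
      rw [mul_add, mul_one, mul_div_cancel₀ _ c0]
      ring
    have e2 : Log n = Log g + Log (1 + l * w) +
        Log (1 + (n - g * (1 + l * w)) / (g * (1 + l * w))) := by
      conv_lhs => rw [e]
      rw [hLog.mul _ _ c0 d3, hLog.mul _ _ (upe_ne ug.2) (upe_ne m1)]
    have e3 : Log n - Log (1 + l * w) =
        Log g + Log (1 + (n - g * (1 + l * w)) / (g * (1 + l * w))) := by
      rw [e2]
      ring
    rw [e3]
    exact upe_add (unit g ug) d2
  have N1 := logN g₁ l₁ n₁ ug₁ ul₁ hn₁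
  have N2 := logN g₂ l₂ n₂ ug₂ ul₂ hn₂
  have hF : ∀ F : K, ‖F - 1‖ ≤ ρ → ‖Log F‖ ≤ ρ := by
    intro F h
    have h2 := small _ h
    rwa [add_sub_cancel] at h2
  have k1 := upe_nat hp hE e₁ he₁ he₁p
  have k2 := upe_nat hp hE e₂ he₂ he₂p
  have q1 := upe_ne k1
  have q2 := upe_ne k2
  have T1 : ‖(Log a₁ + Log F₁) / (e₁ : K)‖ ≤ ρ := by
    rw [norm_div, k1, div_one]
    exact upe_add (unit _ ua₁) (hF _ hF₁)
  have T2 : ‖(Log a₂ + Log F₂) / (e₂ : K)‖ ≤ ρ := by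
    rw [norm_div, k2, div_one]
    exact upe_add (unit _ ua₂) (hF _ hF₂)
  have T : ‖(Log a₁ + Log F₁) / (e₁ : K) - (Log a₂ + Log F₂) / (e₂ : K)‖ ≤ ρ := upe_sub T1 T2
  have L1 : Log t = (Log a₁ + Log F₁) / (e₁ : K) - ((s : ℚ) : K) * Log n₁ := by
    field_simp
    linear_combination R1
  have L2 : Log t = (Log a₂ + Log F₂) / (e₂ : K) - ((s : ℚ) : K) * Log n₂ := by
    field_simp
    linear_combination R2
  have hBK : (B : K) = (e' : K) * ((s : ℚ) : K) * (A : K) := by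
    have h := congrArg (fun x : ℚ => (x : K)) hB
    push_cast at h
    exact h
  have ey : 1 + y = (1 + l₁ * w) / (1 + l₂ * w) := by
    rw [hy]
    field_simp
    ring
  have er : 1 + r * y = 1 / (1 + l₂ * w) := by
    rw [hr, hy]
    field_simp
    ring
  have logy1 : Log (1 + y) = Log (1 + l₁ * w) - Log (1 + l₂ * w) := by
    rw [ey, logdiv _ _ z1 z2]
  have logr : Log (1 + r * y) = -Log (1 + l₂ * w) := by
    rw [er, logdiv _ _ one_ne_zero z2, log1, zero_sub]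
  have logw : Log w = -((e' : K) * Log t) := by
    rw [hw, logdiv _ _ hp0 hte, hLog.pp, zero_sub]
    have h := logz t (e' : ℤ) ht0
    rw [zpow_natCast] at h
    rw [h]
    push_cast
    rfl
  have logy : Log y = Log (l₁ - l₂) + Log w - Log (1 + l₂ * w) := by
    rw [hy, logdiv _ _ (mul_ne_zero zl hw0) z2, hLog.mul _ _ zl hw0]
  have ull : Uu p (l₁ - l₂) := ⟨(rg _ _ ul₁ ul₂).2.2.2, hl⟩
  have nA := IsUltrametricDist.norm_natCast_le_one K A
  have nB := IsUltrametricDist.norm_natCast_le_one K B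
  have ne' := IsUltrametricDist.norm_natCast_le_one K e'
  have G3 : ‖(B : K) * Log (1 + y) -
      e' * A * ((Log a₁ + Log F₁) / (e₁ : K) - (Log a₂ + Log F₂) / (e₂ : K))‖ ≤
        ρ * ‖(B : K)‖ := by
    have e : (B : K) * Log (1 + y) -
        e' * A * ((Log a₁ + Log F₁) / (e₁ : K) - (Log a₂ + Log F₂) / (e₂ : K)) =
        ((Log n₂ - Log (1 + l₂ * w)) - (Log n₁ - Log (1 + l₁ * w))) * (B : K) := by
      rw [logy1]
      linear_combination (Log n₁ - Log n₂) * hBK + (e' : K) * A * (L1 - L2)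
    rw [e, norm_mul]
    exact mul_le_mul_of_nonneg_right (upe_sub N2 N1) (norm_nonneg _)
  have G3' : ‖(B : K) * Log (1 + y) -
      e' * A * ((Log a₁ + Log F₁) / (e₁ : K) - (Log a₂ + Log F₂) / (e₂ : K))‖ ≤ ρ :=
    G3.trans (mul_le_of_le_one_right hρ0 nB)
  refine ⟨?_, ?_, G3, T⟩
  · rw [hy, norm_div, norm_mul, hl, one_mul, n2, div_one]
  · have e : (A : K) * Log y - ((A : K) - B) * Log (1 + r * y) =
        (A : K) * Log (l₁ - l₂) - (e' : K) * ((A : K) * ((Log a₁ + Log F₁) / (e₁ : K))) +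
          (B : K) * (Log n₁ - Log (1 + l₁ * w)) +
          (((B : K) * Log (1 + y) -
            e' * A * ((Log a₁ + Log F₁) / (e₁ : K) - (Log a₂ + Log F₂) / (e₂ : K))) +
            (e' : K) * ((A : K) *
              ((Log a₁ + Log F₁) / (e₁ : K) - (Log a₂ + Log F₂) / (e₂ : K)))) := by
      rw [logy, logr, logw, logy1]
      linear_combination (-(e' : K) * A) * L1 - Log n₁ * hBK
    rw [e]
    exact upe_add (upe_add (upe_sub (upe_mul nA (unit _ ull)) (upe_mul ne' (upe_mul nA T1)))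
      (upe_mul nB N1)) (upe_add G3' (upe_mul ne' (upe_mul nA T)))

end

end Pool.Agent.ZPK.H10
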