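import Pool.Agent.ZPK.StmtsX

/-! Squad ZPK, row XZE: near a zero of the form `v`. -/

set_option autoImplicit false

namespace Pool.Agent.ZPK.H10

open Pool.Agent.ZPT Pool.Agent.ZP3 Pool.Agent.ZPK

noncomputable section

theorem one_of {K : Type} [NormedField K] [IsUltrametricDist K] {a b : K} (ha : ‖a‖ = 1)
    (hb : ‖b - a‖ < 1) : ‖b‖ = 1 := by
  apply le_antisymm
  · have h := IsUltrametricDist.norm_add_le_max (b - a) a
    rw [sub_add_cancel, ha] at h
    exact h.trans (max_le hb.le le_rfl)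
  · have h := IsUltrametricDist.norm_add_le_max (a - b) b
    rw [sub_add_cancel, ha, norm_sub_rev] at h
    rcases le_max_iff.mp h with h | h
    · exact absurd h (not_le.mpr hb)
    · exact h

theorem ne_of_one {K : Type} [NormedField K] {a : K} (ha : ‖a‖ = 1) : a ≠ 0 := by
  intro e
  rw [e, norm_zero] at ha
  exact zero_ne_one ha

theorem xze (urr : ZP3.URRStmt) (thb : ZP3.THBStmt) (gtf : GtfStmt) : XzeStmt := by
  intro p hp hp11 K _ _ _ hE Log hLog Gv Gx Gy Gu Bv Bx By Bu κv κx κy κu Nv Nx Ny Nu' w ρ hρ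
    uGv uGx uGy uGu uBv uBx uBy uBu uκv uκx uκy uκu hw hzz hNv hNx hNy hNu hRo hDep dvx dvy dvu
    dxy hG
  obtain ⟨-, t0, t1, -, -⟩ := thb p hp (by omega)
  obtain ⟨rg, -, -, -, inv⟩ := urr p hp K hE
  have mulU : ∀ a b : K, Uu p a → Uu p b → Uu p (a * b) := fun a b ha hb =>
    ⟨(rg a b ha.1 hb.1).2.1, by rw [norm_mul, ha.2, hb.2, one_mul]⟩
  have ht6 : th p ^ 6 ≤ th p := by
    calc th p ^ 6 ≤ th p ^ 1 := pow_le_pow_of_le_one t0.le t1.le (by norm_num)
      _ = th p := pow_one _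
  have hρt : ρ < th p := hρ.trans_le ht6
  have hρ1 : ρ < 1 := hρt.trans t1
  have hp0 : (p : K) ≠ 0 := by
    exact_mod_cast hp.ne_zero
  have hBv0 : Bv ≠ 0 := ne_of_one uBv.2
  have hzn : ‖w + Gv / Bv‖ < 1 := by
    have e : ‖w + Gv / Bv‖ = ‖Gv + Bv * w‖ := by
      calc ‖w + Gv / Bv‖ = ‖Bv‖ * ‖w + Gv / Bv‖ := by rw [uBv.2, one_mul]
        _ = ‖Bv * (w + Gv / Bv)‖ := (norm_mul _ _).symm
        _ = ‖Gv + Bv * w‖ := by
          congr 1
          field_simp
          ring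
    rw [e]
    exact hzz
  have key : ∀ G B κ N : K, Ur p G → Ur p B → Uu p κ → ‖Gv * B - G * Bv‖ = 1 →
      ‖N - (G + B * w)‖ ≤ ρ → Uu p (κ * (G - B * Gv / Bv)) ∧
      Ur p (B * Bv / (G * Bv - B * Gv)) ∧
      κ * (G - B * Gv / Bv) * (1 + B * Bv / (G * Bv - B * Gv) * (w + Gv / Bv)) =
        κ * (G + B * w) ∧ ‖κ * N - κ * (G + B * w)‖ ≤ ρ ∧
      ‖κ * (G + B * w) - κ * (G - B * Gv / Bv)‖ ≤ ‖w + Gv / Bv‖ ∧ ‖κ * N‖ = 1 := by
    intro G B κ N uG uB uκ hd hN
    have uD : Uu p (G * Bv - B * Gv) := by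
      refine ⟨(rg _ _ (rg _ _ uG uBv.1).2.1 (rg _ _ uB uGv.1).2.1).2.2.2, ?_⟩
      rw [← hd, ← norm_neg]
      congr 1
      ring
    have hD0 : G * Bv - B * Gv ≠ 0 := ne_of_one uD.2
    have e1 : G - B * Gv / Bv = (G * Bv - B * Gv) * Bv⁻¹ := by
      field_simp
    have u1 : Uu p (κ * (G - B * Gv / Bv)) := by
      rw [e1]
      exact mulU _ _ uκ (mulU _ _ uD (inv _ uBv))
    have u2 : Ur p (B * Bv / (G * Bv - B * Gv)) := by
      rw [div_eq_mul_inv]
      exact (rg _ _ (rg _ _ uB uBv.1).2.1 (inv _ uD).1).2.1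
    have h3 : κ * (G - B * Gv / Bv) * (1 + B * Bv / (G * Bv - B * Gv) * (w + Gv / Bv)) =
        κ * (G + B * w) := by
      rw [e1]
      field_simp
      ring
    have h4 : ‖κ * N - κ * (G + B * w)‖ ≤ ρ := by
      rw [← mul_sub, norm_mul, uκ.2, one_mul]
      exact hN
    have h5 : ‖κ * (G + B * w) - κ * (G - B * Gv / Bv)‖ ≤ ‖w + Gv / Bv‖ := by
      have e : κ * (G + B * w) - κ * (G - B * Gv / Bv) = κ * (B * (w + Gv / Bv)) := by ring
      rw [e, norm_mul, uκ.2, one_mul, norm_mul]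
      exact mul_le_of_le_one_left (norm_nonneg _) uB.1
    refine ⟨u1, u2, h3, h4, h5, ?_⟩
    have h6 : ‖κ * (G + B * w)‖ = 1 := one_of u1.2 (h5.trans_lt hzn)
    exact one_of h6 (h4.trans_lt hρ1)
  obtain ⟨x1, x2, x3, x4, x5, x6⟩ := key Gx Bx κx Nx uGx uBx uκx dvx hNx
  obtain ⟨y1, y2, y3, y4, y5, y6⟩ := key Gy By κy Ny uGy uBy uκy dvy hNy
  obtain ⟨u1, u2, u3, u4, u5, u6⟩ := key Gu Bu κu Nu' uGu uBu uκu dvu hNu
  have hky : κy * Ny ≠ 0 := ne_of_one y6
  have hcy : κy * (Gy - By * Gv / Bv) ≠ 0 := ne_of_one y1.2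
  by_cases hz : ‖w + Gv / Bv‖ < th p
  · have a1 : ‖κx * Nx - κx * (Gx - Bx * Gv / Bv)‖ < th p := by
      have h := IsUltrametricDist.norm_add_le_max (κx * Nx - κx * (Gx + Bx * w))
        (κx * (Gx + Bx * w) - κx * (Gx - Bx * Gv / Bv))
      rw [sub_add_sub_cancel] at h
      exact h.trans_lt (max_lt (x4.trans_lt hρt) (x5.trans_lt hz))
    have a2 : ‖κy * Ny - κy * (Gy - By * Gv / Bv)‖ < th p := by
      have h := IsUltrametricDist.norm_add_le_max (κy * Ny - κy * (Gy + By * w))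
        (κy * (Gy + By * w) - κy * (Gy - By * Gv / Bv))
      rw [sub_add_sub_cancel] at h
      exact h.trans_lt (max_lt (y4.trans_lt hρt) (y5.trans_lt hz))
    have e : κx * Nx / (κy * Ny) - κx * (Gx - Bx * Gv / Bv) / (κy * (Gy - By * Gv / Bv)) =
        ((κx * Nx - κx * (Gx - Bx * Gv / Bv)) * (κy * (Gy - By * Gv / Bv)) +
          κx * (Gx - Bx * Gv / Bv) * (κy * (Gy - By * Gv / Bv) - κy * Ny)) /
          (κy * Ny * (κy * (Gy - By * Gv / Bv))) := by
      rw [div_sub_div _ _ hky hcy]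
      congr 1
      ring
    rw [e, norm_div, norm_mul (κy * Ny), y6, y1.2, one_mul, div_one]
    refine (IsUltrametricDist.norm_add_le_max _ _).trans_lt (max_lt ?_ ?_)
    · rw [norm_mul, y1.2, mul_one]
      exact a1
    · rw [norm_mul, x1.2, one_mul, norm_sub_rev]
      exact a2
  · exfalso
    obtain ⟨A, B, hA, hB, hAB⟩ := hDep
    have hζ : ‖κx * Nx / (κy * Ny)‖ = 1 := by
      rw [norm_div, x6, y6, div_one]
    have uh : Uu p (κx * (Gx - Bx * Gv / Bv) / (κy * (Gy - By * Gv / Bv))) := by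
      rw [div_eq_mul_inv]
      exact mulU _ _ x1 (inv _ y1)
    have hDx : Gx * Bv - Bx * Gv ≠ 0 := by
      apply ne_of_one
      rw [← dvx, ← norm_neg]
      congr 1
      ring
    have hDy : Gy * Bv - By * Gv ≠ 0 := by
      apply ne_of_one
      rw [← dvy, ← norm_neg]
      congr 1
      ring
    have nDx : ‖Gx * Bv - Bx * Gv‖ = 1 := by
      rw [← dvx, ← norm_neg]
      congr 1
      ring
    have nDy : ‖Gy * Bv - By * Gv‖ = 1 := by
      rw [← dvy, ← norm_neg]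
      congr 1
      ring
    have hl : ‖Bx * Bv / (Gx * Bv - Bx * Gv) - By * Bv / (Gy * Bv - By * Gv)‖ = 1 := by
      have e : Bx * Bv / (Gx * Bv - Bx * Gv) - By * Bv / (Gy * Bv - By * Gv) =
          -(Bv * Bv * (Gx * By - Gy * Bx)) / ((Gx * Bv - Bx * Gv) * (Gy * Bv - By * Gv)) := by
        rw [div_sub_div _ _ hDx hDy]
        congr 1
        ring
      rw [e, norm_div, norm_neg, norm_mul, norm_mul, norm_mul, dxy, uBv.2, nDx, nDy]
      norm_num
    apply gtf p hp hp11 K hE Log hLog (w + Gv / Bv) (Bx * Bv / (Gx * Bv - Bx * Gv))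
      (By * Bv / (Gy * Bv - By * Gv)) (Bu * Bv / (Gu * Bv - Bu * Gv))
      (κx * (Gx - Bx * Gv / Bv) / (κy * (Gy - By * Gv / Bv))) (κv * Bv)
      (κu * (Gu - Bu * Gv / Bv)) (κx * Nx / (κy * Ny)) (κv * Nv / p) (κu * Nu' / p) A B ρ hρ
      (not_lt.mp hz) hzn x2 y2 u2 hl uh (mulU _ _ uκv uBv) u1 hRo ?_ ?_ ?_ hA hB hAB hG
    · have e : κx * (Gx - Bx * Gv / Bv) / (κy * (Gy - By * Gv / Bv)) *
          (1 + Bx * Bv / (Gx * Bv - Bx * Gv) * (w + Gv / Bv)) -
          κx * Nx / (κy * Ny) * (1 + By * Bv / (Gy * Bv - By * Gv) * (w + Gv / Bv)) =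
          ((κx * (Gx + Bx * w) - κx * Nx) + κx * Nx / (κy * Ny) *
            (κy * Ny - κy * (Gy + By * w))) / (κy * (Gy - By * Gv / Bv)) := by
        rw [eq_div_iff hcy]
        have e2 : κx * Nx / (κy * Ny) * (κy * Ny) = κx * Nx := div_mul_cancel₀ _ hky
        have e3 : κx * (Gx - Bx * Gv / Bv) / (κy * (Gy - By * Gv / Bv)) *
            (κy * (Gy - By * Gv / Bv)) = κx * (Gx - Bx * Gv / Bv) := div_mul_cancel₀ _ hcy
        calc (κx * (Gx - Bx * Gv / Bv) / (κy * (Gy - By * Gv / Bv)) *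
            (1 + Bx * Bv / (Gx * Bv - Bx * Gv) * (w + Gv / Bv)) -
            κx * Nx / (κy * Ny) * (1 + By * Bv / (Gy * Bv - By * Gv) * (w + Gv / Bv))) *
            (κy * (Gy - By * Gv / Bv)) =
            (κx * (Gx - Bx * Gv / Bv) / (κy * (Gy - By * Gv / Bv)) *
              (κy * (Gy - By * Gv / Bv))) *
              (1 + Bx * Bv / (Gx * Bv - Bx * Gv) * (w + Gv / Bv)) -
            κx * Nx / (κy * Ny) * (κy * (Gy - By * Gv / Bv) *
              (1 + By * Bv / (Gy * Bv - By * Gv) * (w + Gv / Bv))) := by ring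
          _ = κx * (Gx + Bx * w) - κx * Nx / (κy * Ny) * (κy * (Gy + By * w)) := by
            rw [e3, x3, y3]
          _ = κx * (Gx + Bx * w) - κx * Nx / (κy * Ny) * (κy * Ny) + κx * Nx / (κy * Ny) *
            (κy * Ny - κy * (Gy + By * w)) := by ring
          _ = _ := by rw [e2]
      rw [e, norm_div, y1.2, div_one]
      refine (IsUltrametricDist.norm_add_le_max _ _).trans (max_le ?_ ?_)
      · rw [norm_sub_rev]
        exact x4
      · rw [norm_mul, hζ, one_mul]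
        exact y4
    · have e : (p : K) * (κv * Nv / p) - κv * Bv * (w + Gv / Bv) =
          κv * (Nv - (Gv + Bv * w)) := by
        field_simp
        ring
      rw [e, norm_mul, uκv.2, one_mul]
      exact hNv
    · rw [mul_div_cancel₀ _ hp0, u3]
      exact u4

end

end Pool.Agent.ZPK.H10
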