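import Pool.Agent.ZPK.StmtsD

/-! Squad ZPK, row ZLB: a lower bound of the Dedekind zeta function by a finite Euler product. -/

set_option autoImplicit false

namespace Pool.Agent.ZPK.H10

open Pool.Agent.ZPT Pool.Agent.ZP3 Pool.Agent.ZPK

noncomputable section

theorem zlb_inj {R : Type} [CommRing R] [IsDomain R] [IsDedekindDomain R] {P : Ideal R}
    (hP : Prime P) {i j : ℕ} {I I' : Ideal R} (hI : ¬ P ∣ I) (hij : i ≤ j)
    (h : P ^ i * I = P ^ j * I') : i = j ∧ I = I' := by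
  obtain ⟨d, rfl⟩ := Nat.exists_eq_add_of_le hij
  rw [pow_add, mul_assoc] at h
  have h1 : I = P ^ d * I' := mul_left_cancel₀ (pow_ne_zero i hP.ne_zero) h
  cases d with
  | zero =>
    rw [pow_zero, one_mul] at h1
    exact ⟨rfl, h1⟩
  | succ d =>
    exfalso
    apply hI
    rw [h1, pow_succ', mul_assoc]
    exact dvd_mul_right _ _

theorem zlb_aux (F : Type) [Field F] [NumberField F] (s : ℝ) (k : ℕ)
    (T : Finset (Ideal (NumberField.RingOfIntegers F))) :
    (∀ P ∈ T, P.IsPrime ∧ P ≠ ⊥) →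
    ∃ J : Finset (Ideal (NumberField.RingOfIntegers F)), (∀ I ∈ J, I ≠ ⊥) ∧
      (∀ Q : Ideal (NumberField.RingOfIntegers F), Prime Q → Q ∉ T → ∀ I ∈ J, ¬ Q ∣ I) ∧
      ∏ P ∈ T, ∑ i ∈ Finset.range k, (((Ideal.absNorm P : ℕ) : ℝ) ^ (-s)) ^ i =
        ∑ I ∈ J, ((Ideal.absNorm I : ℕ) : ℝ) ^ (-s) := by
  classical
  induction T using Finset.induction_on with
  | empty =>
    intro _
    refine ⟨{1}, ?_, ?_, ?_⟩
    · intro I hI
      rw [Finset.mem_singleton] at hI
      rw [hI]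
      exact one_ne_zero
    · intro Q hQ _ I hI hd
      rw [Finset.mem_singleton] at hI
      rw [hI] at hd
      exact hQ.not_dvd_one hd
    · simp
  | insert P T hPT ih =>
    intro hT
    obtain ⟨J, hJ0, hJd, hJ⟩ := ih (fun Q hQ => hT Q (Finset.mem_insert_of_mem hQ))
    have hP := hT P (Finset.mem_insert_self P T)
    have hPp : Prime P := Ideal.prime_of_isPrime hP.2 hP.1
    refine ⟨(Finset.range k ×ˢ J).image (fun y => P ^ y.1 * y.2), ?_, ?_, ?_⟩
    · intro I hI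
      rw [Finset.mem_image] at hI
      obtain ⟨⟨i, I'⟩, hy, rfl⟩ := hI
      rw [Finset.mem_product] at hy
      exact mul_ne_zero (pow_ne_zero i hP.2) (hJ0 I' hy.2)
    · intro Q hQ hQT I hI hd
      rw [Finset.mem_image] at hI
      obtain ⟨⟨i, I'⟩, hy, rfl⟩ := hI
      rw [Finset.mem_product] at hy
      rw [Finset.mem_insert, not_or] at hQT
      rcases hQ.dvd_or_dvd hd with h | h
      · have h1 : Q ∣ P := hQ.dvd_of_dvd_pow h
        have h2 : Associated Q P := (hQ.dvd_prime_iff_associated hPp).mp h1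
        exact hQT.1 (associated_iff_eq.mp h2)
      · exact hJd Q hQ hQT.2 I' hy.2 h
    · rw [Finset.prod_insert hPT, hJ, Finset.sum_mul_sum, ← Finset.sum_product', Finset.sum_image]
      · refine Finset.sum_congr rfl ?_
        rintro ⟨i, I⟩ -
        have e : ((Ideal.absNorm (P ^ i * I) : ℕ) : ℝ) =
            ((Ideal.absNorm P : ℕ) : ℝ) ^ i * ((Ideal.absNorm I : ℕ) : ℝ) := by
          rw [map_mul, map_pow]
          push_cast
          ring
        show (((Ideal.absNorm P : ℕ) : ℝ) ^ (-s)) ^ i * ((Ideal.absNorm I : ℕ) : ℝ) ^ (-s) =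
          ((Ideal.absNorm (P ^ i * I) : ℕ) : ℝ) ^ (-s)
        rw [e, Real.mul_rpow (pow_nonneg (Nat.cast_nonneg _) _) (Nat.cast_nonneg _)]
        congr 1
        rw [← Real.rpow_natCast, ← Real.rpow_mul (Nat.cast_nonneg _), ← Real.rpow_natCast,
          ← Real.rpow_mul (Nat.cast_nonneg _), mul_comm]
      · rintro ⟨i, I⟩ hy ⟨j, I'⟩ hy' h
        have hy1 := (Finset.mem_product.mp (Finset.mem_coe.mp hy)).2
        have hy2 := (Finset.mem_product.mp (Finset.mem_coe.mp hy')).2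
        have n1 : ¬ P ∣ I := hJd P hPp hPT I hy1
        have n2 : ¬ P ∣ I' := hJd P hPp hPT I' hy2
        have h' : P ^ i * I = P ^ j * I' := h
        rcases le_total i j with hij | hij
        · obtain ⟨e1, e2⟩ := zlb_inj hPp n1 hij h'
          rw [e1, e2]
        · obtain ⟨e1, e2⟩ := zlb_inj hPp n2 hij h'.symm
          rw [e1, e2]

theorem zlb (zsm : ZsmStmt) : ZlbStmt := by
  intro F _ _ s hs T hT
  have hle : ∀ k : ℕ, ∏ P ∈ T, ∑ i ∈ Finset.range k,
      (((Ideal.absNorm P : ℕ) : ℝ) ^ (-s)) ^ i ≤ (NumberField.dedekindZeta F (s : ℂ)).re := by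
    intro k
    obtain ⟨J, hJ0, -, hJ⟩ := zlb_aux F s k T hT
    rw [hJ]
    exact zsm F s hs J hJ0
  have hx : ∀ P ∈ T, 0 ≤ ((Ideal.absNorm P : ℕ) : ℝ) ^ (-s) ∧
      ((Ideal.absNorm P : ℕ) : ℝ) ^ (-s) < 1 := by
    intro P hP
    refine ⟨Real.rpow_nonneg (Nat.cast_nonneg _) _, ?_⟩
    have h0 : Ideal.absNorm P ≠ 0 := by
      intro h
      exact (hT P hP).2 (Ideal.absNorm_eq_zero_iff.mp h)
    have h1 : Ideal.absNorm P ≠ 1 := by
      intro h
      exact (hT P hP).1.ne_top (Ideal.absNorm_eq_one_iff.mp h)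
    have h2 : 1 < Ideal.absNorm P := by omega
    exact Real.rpow_lt_one_of_one_lt_of_neg (by exact_mod_cast h2) (by linarith)
  have hlim : Filter.Tendsto (fun k : ℕ => ∏ P ∈ T, ∑ i ∈ Finset.range k,
      (((Ideal.absNorm P : ℕ) : ℝ) ^ (-s)) ^ i) Filter.atTop
      (nhds (∏ P ∈ T, (1 - ((Ideal.absNorm P : ℕ) : ℝ) ^ (-s))⁻¹)) := by
    apply tendsto_finset_prod
    intro P hP
    exact (hasSum_geometric_of_lt_one (hx P hP).1 (hx P hP).2).tendsto_sum_nat
  exact le_of_tendsto' hlim hle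

end

end Pool.Agent.ZPK.H10
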